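import Pool.Agent.R261.SF.Pert

/-! The adjoint and operators with closed range of finite codimension. -/

open scoped ENNReal
open Set

namespace R261.SF

variable {V W : Type*} [NormedAddCommGroup V] [NormedSpace ℂ V] [NormedAddCommGroup W]
  [NormedSpace ℂ W]

/-- the adjoint -/
noncomputable def adj (A : V →L[ℂ] W) : (W →L[ℂ] ℂ) →L[ℂ] (V →L[ℂ] ℂ) :=
  (ContinuousLinearMap.compL ℂ V W ℂ).flip A

theorem adj_apply (A : V →L[ℂ] W) (f : W →L[ℂ] ℂ) (v : V) : adj A f v = f (A v) := rfl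

theorem adj_add (A B : V →L[ℂ] W) : adj (A + B) = adj A + adj B := by
  ext f v
  simp [adj_apply]

variable [CompleteSpace V] [CompleteSpace W]

theorem BB_adj_of_lower {A : V →L[ℂ] W} (h1 : IsClosed (LinearMap.range (A : V →ₗ[ℂ] W) : Set W))
    (h2 : (LinearMap.range (A : V →ₗ[ℂ] W)).CoFG) : BB (adj A) := by
  set R := LinearMap.range (A : V →ₗ[ℂ] W) with hR
  have : CompleteSpace R := h1.completeSpace_coe
  obtain ⟨π, hπ⟩ := Submodule.ClosedComplemented.of_finiteDimensional_quotient h1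
  set G := LinearMap.ker (π : W →ₗ[ℂ] R) with hG
  have hdisj : Disjoint G R := by
    rw [Submodule.disjoint_def]
    intro x hx hxR
    have h3 : π x = 0 := hx
    have h4 := hπ ⟨x, hxR⟩
    simp only at h4
    rw [h3] at h4
    exact (congrArg Subtype.val h4).symm
  have hGf : FiniteDimensional ℂ G := Module.Finite.iff_fg.2 (Submodule.CoFG.fg_of_disjoint hdisj h2)
  set AR : V →L[ℂ] R := A.codRestrict R (fun v => ⟨v, rfl⟩) with hAR
  have hsurj : Function.Surjective AR := by
    rintro ⟨w, v, rfl⟩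
    exact ⟨v, rfl⟩
  obtain ⟨C, hC0, hC⟩ := AR.exists_preimage_norm_le hsurj
  set Φ : (W →L[ℂ] ℂ) →ₗ[ℂ] Module.Dual ℂ G :=
    { toFun := fun f => (f : W →ₗ[ℂ] ℂ) ∘ₗ G.subtype
      map_add' := fun _ _ => rfl
      map_smul' := fun _ _ => rfl } with hΦ
  refine ⟨LinearMap.ker Φ, Submodule.CoFG.ker Φ, (C * ‖π‖ + 1)⁻¹, by positivity, ?_⟩
  intro f hf
  have hfG : ∀ w ∈ G, f w = 0 := by
    intro w hw
    have := LinearMap.congr_fun (LinearMap.mem_ker.1 hf) ⟨w, hw⟩
    exact this
  rw [inv_mul_le_iff₀ (by positivity)]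
  have key : ‖f‖ ≤ C * ‖π‖ * ‖adj A f‖ := by
    refine f.opNorm_le_bound (by positivity) ?_
    intro w
    have hw : f w = f (π w : W) := by
      have h3 : w - (π w : W) ∈ G := by
        show π (w - (π w : W)) = 0
        rw [map_sub, hπ, sub_self]
      have h4 := hfG _ h3
      rw [map_sub, sub_eq_zero] at h4
      exact h4
    obtain ⟨v, hv, hvn⟩ := hC (π w)
    have hAv : A v = (π w : W) := congrArg Subtype.val hv
    rw [hw, ← hAv, ← adj_apply]
    calc ‖adj A f v‖ ≤ ‖adj A f‖ * ‖v‖ := (adj A f).le_opNorm v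
      _ ≤ ‖adj A f‖ * (C * (‖π‖ * ‖w‖)) := by
        gcongr
        exact hvn.trans (by gcongr; exact π.le_opNorm w)
      _ = C * ‖π‖ * ‖adj A f‖ * ‖w‖ := by ring
  nlinarith [norm_nonneg (adj A f)]

omit [CompleteSpace V] [CompleteSpace W] in
theorem kerCoFG {X Y : Type*} [AddCommGroup X] [Module ℂ X] [AddCommGroup Y] [Module ℂ Y]
    (h : FiniteDimensional ℂ X) (ev : Y →ₗ[ℂ] Module.Dual ℂ X) : (LinearMap.ker ev).CoFG :=
  Submodule.CoFG.ker ev

/-- the annihilator part -/
def ann (A : V →L[ℂ] W) : Submodule ℂ W where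
  carrier := {w | ∀ g : W →L[ℂ] ℂ, adj A g = 0 → g w = 0}
  add_mem' := by
    intro a b ha hb g hg
    rw [map_add, ha g hg, hb g hg, add_zero]
  zero_mem' := by
    intro g _
    exact map_zero g
  smul_mem' := by
    intro c a ha g hg
    rw [map_smul, ha g hg, smul_zero]

omit [CompleteSpace V] [CompleteSpace W] in
theorem range_le_ann (A : V →L[ℂ] W) (v : V) : A v ∈ ann A := by
  intro g hg
  rw [← adj_apply, hg]; rfl

omit [CompleteSpace V] [CompleteSpace W] in
theorem near {A : V →L[ℂ] W} {C : ℝ} (hC0 : 0 < C)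
    (hC : ∀ f : W →L[ℂ] ℂ, ∃ f' : W →L[ℂ] ℂ, adj A f' = adj A f ∧ ‖f'‖ ≤ C * ‖adj A f‖)
    {w : W} (hw : w ∈ ann A) (hwn : C * ‖w‖ < 1) : w ∈ closure (A '' Metric.closedBall 0 1) := by
  by_contra hn
  have hconv : Convex ℝ (closure (A '' Metric.closedBall 0 1)) := by
    apply Convex.closure
    have := (convex_closedBall (0 : V) 1).linear_image ((A : V →ₗ[ℂ] W).restrictScalars ℝ)
    exact this
  obtain ⟨f, u, hfu, hfw⟩ := RCLike.geometric_hahn_banach_closed_point (𝕜 := ℂ) hconv isClosed_closure hn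
  have hb : ∀ v : V, ‖v‖ ≤ 1 → RCLike.re (f (A v)) < u := by
    intro v hv
    exact hfu _ (subset_closure ⟨v, by simpa using hv, rfl⟩)
  have hu : 0 < u := by
    have := hb 0 (by simp)
    simpa using this
  have hb2 : ∀ v : V, ‖v‖ ≤ 1 → ‖f (A v)‖ ≤ u := by
    intro v hv
    rcases eq_or_ne (f (A v)) 0 with h0 | h0
    · rw [h0, norm_zero]; exact hu.le
    · set z := f (A v) with hz
      have hzn : 0 < ‖z‖ := norm_pos_iff.2 h0
      have h1 := hb (((starRingEnd ℂ) z / (‖z‖ : ℂ)) • v) (by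
        rw [norm_smul, norm_div, Complex.norm_real, norm_norm]
        have : ‖(starRingEnd ℂ) z‖ = ‖z‖ := Complex.norm_conj z
        rw [this, div_self hzn.ne', one_mul]
        exact hv)
      rw [map_smul, map_smul, smul_eq_mul, ← hz] at h1
      have h2 : (starRingEnd ℂ) z / (‖z‖ : ℂ) * z = (‖z‖ : ℂ) := by
        have h3 : (starRingEnd ℂ) z * z = (‖z‖ : ℂ)^2 := Complex.conj_mul' z
        have h4 : (‖z‖ : ℂ) ≠ 0 := by exact_mod_cast hzn.ne'
        field_simp
        rw [h3]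
      rw [h2] at h1
      have h5 : RCLike.re ((‖z‖ : ℂ)) = ‖z‖ := by simp
      rw [h5] at h1
      exact h1.le
  have hnorm : ‖adj A f‖ ≤ u := by
    refine (adj A f).opNorm_le_bound hu.le ?_
    intro v
    rcases eq_or_ne v 0 with rfl | hv0
    · simp
    · have hvn : 0 < ‖v‖ := norm_pos_iff.2 hv0
      have h1 := hb2 (((‖v‖ : ℂ)⁻¹) • v) (by
        rw [norm_smul, norm_inv, Complex.norm_real, norm_norm, inv_mul_cancel₀ hvn.ne'])
      rw [map_smul, map_smul, norm_smul, norm_inv, Complex.norm_real, norm_norm,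
        inv_mul_le_iff₀ hvn] at h1
      rw [adj_apply]; linarith
  obtain ⟨f', hf', hf'n⟩ := hC f
  have hg : adj A (f - f') = 0 := by rw [map_sub, hf', sub_self]
  have h1 := hw (f - f') hg
  have h2 : f w = f' w := by
    have : f w - f' w = 0 := h1
    exact sub_eq_zero.1 this
  have h3 : RCLike.re (f w) ≤ ‖f w‖ := RCLike.re_le_norm _
  have h4 : ‖f' w‖ ≤ ‖f'‖ * ‖w‖ := f'.le_opNorm w
  rw [h2] at h3 hfw
  have h5 : ‖f'‖ ≤ C * u := hf'n.trans (by gcongr)
  have h6 : u < C * u * ‖w‖ := by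
    calc u < RCLike.re (f' w) := hfw
      _ ≤ ‖f'‖ * ‖w‖ := h3.trans h4
      _ ≤ C * u * ‖w‖ := by gcongr
  nlinarith

omit [CompleteSpace W] in
/-- approximate solvability implies solvability -/
theorem solve {A : V →L[ℂ] W} {R : Submodule ℂ W} (hR : ∀ v, A v ∈ R) {K : ℝ} (hK : 0 ≤ K)
    (hap : ∀ w ∈ R, ∀ ε : ℝ, 0 < ε → ∃ v, ‖v‖ ≤ K * ‖w‖ ∧ ‖w - A v‖ ≤ ε)
    {w : W} (hw : w ∈ R) : ∃ v, A v = w := by
  choose! g hg1 hg2 using hap
  set ws : ℕ → W := fun n => Nat.rec w (fun n x => x - A (g x ((1/2)^(n+1)))) n with hws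
  have hws0 : ws 0 = w := rfl
  have hwsS : ∀ n, ws (n+1) = ws n - A (g (ws n) ((1/2)^(n+1))) := fun n => rfl
  have hmem : ∀ n, ws n ∈ R := by
    intro n
    induction n with
    | zero => exact hw
    | succ n ih => rw [hwsS]; exact R.sub_mem ih (hR _)
  have hsmall : ∀ n, ‖ws (n+1)‖ ≤ (1/2)^(n+1) := by
    intro n
    rw [hwsS]
    exact hg2 _ (hmem n) _ (by positivity)
  set vs : ℕ → V := fun n => g (ws n) ((1/2)^(n+1)) with hvs
  have hvn : ∀ n, ‖vs n‖ ≤ K * ‖ws n‖ := fun n => hg1 _ (hmem n) _ (by positivity)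
  have hsum : Summable vs := by
    rw [← summable_nat_add_iff 1]
    have hgeo : Summable (fun n : ℕ => K * ((1/2 : ℝ))^(n+1)) := by
      have := (summable_nat_add_iff (f := fun n : ℕ => ((1/2 : ℝ))^n) 1).2 summable_geometric_two
      exact this.mul_left K
    refine Summable.of_norm_bounded hgeo ?_
    intro n
    exact (hvn (n+1)).trans (by gcongr; exact hsmall n)
  refine ⟨∑' n, vs n, ?_⟩
  have h1 : HasSum (fun n => A (vs n)) (A (∑' n, vs n)) := hsum.hasSum.mapL A
  have h2 := h1.tendsto_sum_nat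
  have h3 : (fun n => ∑ i ∈ Finset.range n, A (vs i)) = fun n => w - ws n := by
    ext n
    induction n with
    | zero => simp [hws0]
    | succ n ih =>
      rw [Finset.sum_range_succ, ih, hwsS]
      show w - ws n + A (g (ws n) ((1/2)^(n+1))) = _
      abel
  rw [h3] at h2
  have h4 : Filter.Tendsto ws Filter.atTop (nhds 0) := by
    rw [← Filter.tendsto_add_atTop_iff_nat 1]
    rw [tendsto_zero_iff_norm_tendsto_zero]
    have h5 : Filter.Tendsto (fun n : ℕ => ((1/2 : ℝ))^(n+1)) Filter.atTop (nhds 0) := by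
      have := tendsto_pow_atTop_nhds_zero_of_lt_one (r := (1/2 : ℝ)) (by norm_num) (by norm_num)
      exact (Filter.tendsto_add_atTop_iff_nat 1).2 this
    exact squeeze_zero (fun n => norm_nonneg _) hsmall h5
  have h5 : Filter.Tendsto (fun n => w - ws n) Filter.atTop (nhds w) := by
    have := (tendsto_const_nhds (x := w)).sub h4
    simpa using this
  exact tendsto_nhds_unique h2 h5

omit [CompleteSpace W] in
theorem lower_of_BB_adj {A : V →L[ℂ] W} (h : BB (adj A)) :
    IsClosed (LinearMap.range (A : V →ₗ[ℂ] W) : Set W) ∧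
      (LinearMap.range (A : V →ₗ[ℂ] W)).CoFG := by
  obtain ⟨hcl, hfd⟩ := upper_of_BB h
  set F := LinearMap.ker (adj A : (W →L[ℂ] ℂ) →ₗ[ℂ] (V →L[ℂ] ℂ)) with hF
  obtain ⟨C, hC0, hC'⟩ := lift_const hcl
  have hap : ∀ w ∈ ann A, ∀ ε : ℝ, 0 < ε → ∃ v, ‖v‖ ≤ (2*C) * ‖w‖ ∧ ‖w - A v‖ ≤ ε := by
    intro w hw ε hε
    rcases eq_or_ne w 0 with rfl | hw0
    · exact ⟨0, by simp, by simpa using hε.le⟩
    have hwn : 0 < ‖w‖ := norm_pos_iff.2 hw0
    set t : ℝ := 2*C*‖w‖ with ht
    have ht0 : 0 < t := by positivity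
    have h1 : ((t : ℂ)⁻¹) • w ∈ closure (A '' Metric.closedBall 0 1) := by
      apply near hC0 hC' ((ann A).smul_mem _ hw)
      rw [norm_smul, norm_inv, Complex.norm_real, Real.norm_eq_abs, abs_of_pos ht0, ht]
      have : C * ((2*C*‖w‖)⁻¹ * ‖w‖) = 1/2 := by field_simp
      rw [this]; norm_num
    rw [Metric.mem_closure_iff] at h1
    obtain ⟨b, ⟨v, hv, rfl⟩, hvd⟩ := h1 (ε/t) (by positivity)
    refine ⟨(t : ℂ) • v, ?_, ?_⟩
    · rw [norm_smul, Complex.norm_real, Real.norm_eq_abs, abs_of_pos ht0]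
      have : ‖v‖ ≤ 1 := by simpa using hv
      nlinarith
    · have e : w - A ((t : ℂ) • v) = (t : ℂ) • (((t : ℂ)⁻¹) • w - A v) := by
        rw [smul_sub, smul_smul, mul_inv_cancel₀ (by exact_mod_cast ht0.ne'), one_smul, map_smul]
      rw [e, norm_smul, Complex.norm_real, Real.norm_eq_abs, abs_of_pos ht0, ← dist_eq_norm]
      have := hvd.le
      rw [le_div_iff₀ ht0] at this
      linarith
  have hrange : LinearMap.range (A : V →ₗ[ℂ] W) = ann A := by
    apply le_antisymm
    · rintro _ ⟨v, rfl⟩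
      exact range_le_ann A v
    · intro w hw
      obtain ⟨v, hv⟩ := solve (range_le_ann A) (by positivity) hap hw
      exact ⟨v, hv⟩
  rw [hrange]
  constructor
  · have : (ann A : Set W) = ⋂ (g : W →L[ℂ] ℂ) (_ : adj A g = 0), {w | g w = 0} := by
      ext w
      simp only [mem_iInter]
      rfl
    rw [this]
    apply isClosed_iInter; intro g
    apply isClosed_iInter; intro _
    exact isClosed_eq g.continuous continuous_const
  · set ev : W →ₗ[ℂ] Module.Dual ℂ F :=
      { toFun := fun w => { toFun := fun g => (g : W →L[ℂ] ℂ) w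
                            map_add' := fun _ _ => rfl
                            map_smul' := fun _ _ => rfl }
        map_add' := fun a b => by ext g; simp
        map_smul' := fun c a => by ext g; simp } with hev
    have hker : LinearMap.ker ev = ann A := by
      ext w
      constructor
      · intro hw g hg
        exact LinearMap.congr_fun (LinearMap.mem_ker.1 hw) ⟨g, hg⟩
      · intro hw
        rw [LinearMap.mem_ker]
        ext g
        exact hw g g.2
    rw [← hker]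
    exact kerCoFG hfd ev

end R261.SF
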