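import Pool.Agent.R261.SF.Dual

/-! The operator `T(y,z) = (0, y)` on `ℓ¹ × ℓ^∞`. -/

open scoped ENNReal
open Set

namespace R261.SF

/-! ### functionals on `ℓ^∞` -/

/-- the unit vectors of `ℓ^∞` -/
noncomputable def ev (k : ℕ) : li := lp.single ∞ k (1 : ℂ)

theorem cs_sum_le (g : li →L[ℂ] ℂ) (s : Finset ℕ) : ∑ k ∈ s, ‖g (ev k)‖ ≤ ‖g‖ := by
  set θ : ℕ → ℂ := fun k => (starRingEnd ℂ) (g (ev k)) / (‖g (ev k)‖ : ℂ) with hθ
  have hθn : ∀ k, ‖θ k‖ ≤ 1 := by
    intro k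
    rw [hθ]
    simp only [norm_div, Complex.norm_real, norm_norm]
    rw [Complex.norm_conj]
    exact div_self_le_one _
  have hθg : ∀ k, θ k * g (ev k) = (‖g (ev k)‖ : ℂ) := by
    intro k
    rcases eq_or_ne (g (ev k)) 0 with h0 | h0
    · rw [h0]; simp
    · have h3 : (starRingEnd ℂ) (g (ev k)) * g (ev k) = (‖g (ev k)‖ : ℂ)^2 := Complex.conj_mul' _
      have h4 : (‖g (ev k)‖ : ℂ) ≠ 0 := by exact_mod_cast (norm_pos_iff.2 h0).ne'
      rw [hθ]
      simp only
      field_simp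
      rw [h3]
  set z : li := ∑ k ∈ s, lp.single ∞ k (θ k) with hz
  have hzc : ∀ j, z j = if j ∈ s then θ j else 0 := by
    intro j
    rw [hz, lp.coeFn_sum, Finset.sum_apply]
    simp only [lp.single_apply, Pi.single_apply]
    rw [Finset.sum_ite_eq]
  have hzn : ‖z‖ ≤ 1 := by
    refine lp.norm_le_of_forall_le zero_le_one ?_
    intro j
    rw [hzc]
    split_ifs
    · exact hθn j
    · simp
  have hgz : g z = ((∑ k ∈ s, ‖g (ev k)‖ : ℝ) : ℂ) := by
    rw [hz, map_sum]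
    push_cast
    refine Finset.sum_congr rfl ?_
    intro k _
    have : (lp.single ∞ k (θ k) : li) = θ k • ev k := by
      rw [ev, ← lp.single_smul, smul_eq_mul, mul_one]
    rw [this, map_smul, smul_eq_mul, hθg]
  have h1 := g.le_opNorm z
  rw [hgz, Complex.norm_real, Real.norm_eq_abs, abs_of_nonneg (Finset.sum_nonneg (fun _ _ => norm_nonneg _))] at h1
  calc ∑ k ∈ s, ‖g (ev k)‖ ≤ ‖g‖ * ‖z‖ := h1
    _ ≤ ‖g‖ * 1 := by gcongr
    _ = ‖g‖ := mul_one _

/-- the coordinates of a functional on `ℓ^∞` -/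
noncomputable def cs : (li →L[ℂ] ℂ) →L[ℂ] l1 :=
  LinearMap.mkContinuous
    { toFun := fun g => (⟨fun k => g (ev k), by
        apply memℓp_gen
        simp only [ENNReal.toReal_one, Real.rpow_one]
        exact summable_of_sum_le (fun _ => norm_nonneg _) (cs_sum_le g)⟩ : l1)
      map_add' := fun _ _ => rfl
      map_smul' := fun _ _ => rfl } 1 (by
    intro g
    rw [one_mul]
    refine lp.norm_le_of_forall_sum_le (by norm_num) (norm_nonneg _) ?_
    intro s
    simp only [ENNReal.toReal_one, Real.rpow_one]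
    exact cs_sum_le g s)

theorem cs_apply (g : li →L[ℂ] ℂ) (k : ℕ) : cs g k = g (ev k) := rfl

theorem norm_cs_le (g : li →L[ℂ] ℂ) : ‖cs g‖ ≤ ‖g‖ := by
  refine lp.norm_le_of_forall_sum_le (by norm_num) (norm_nonneg _) ?_
  intro s
  simp only [ENNReal.toReal_one, Real.rpow_one]
  exact cs_sum_le g s

theorem incl_single (k : ℕ) (a : ℂ) : incl (lp.single 1 k a) = a • ev k := by
  rw [ev, ← lp.single_smul, smul_eq_mul, mul_one]
  rfl

theorem cs_bound (g : li →L[ℂ] ℂ) (y : l1) : ‖g (incl y)‖ ≤ ‖incl (cs g)‖ * ‖y‖ := by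
  have h1 := lp.hasSum_single (p := 1) (by norm_num) y
  have h2 : HasSum (fun k => g (incl (lp.single 1 k (y k)))) (g (incl y)) :=
    (h1.mapL incl).mapL g
  have h3 : ∀ k, ‖g (incl (lp.single 1 k (y k)))‖ ≤ ‖incl (cs g)‖ * ‖y k‖ := by
    intro k
    rw [incl_single, map_smul, smul_eq_mul, norm_mul, mul_comm]
    gcongr
    exact lp.norm_apply_le_norm ENNReal.top_ne_zero (incl (cs g)) k
  have h4 : Summable (fun k => ‖incl (cs g)‖ * ‖y k‖) := (summ y).mul_left _
  rw [← h2.tsum_eq]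
  have h5 : ∑' k, ‖y k‖ ≤ ‖y‖ := (summ y).tsum_le_of_sum_le (sum_le y)
  calc ‖∑' k, g (incl (lp.single 1 k (y k)))‖ ≤ ∑' k, ‖incl (cs g)‖ * ‖y k‖ :=
        tsum_of_norm_bounded h4.hasSum h3
    _ = ‖incl (cs g)‖ * ∑' k, ‖y k‖ := tsum_mul_left
    _ ≤ _ := by gcongr

/-! ### the space and the operator -/

/-- the space `ℓ¹ × ℓ^∞` -/
abbrev X : Type := l1 × li

/-- `T(y,z) = (0,y)` -/
noncomputable def T : X →L[ℂ] X :=
  (ContinuousLinearMap.inr ℂ l1 li).comp (incl.comp (ContinuousLinearMap.fst ℂ l1 li))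

theorem T_apply (v : X) : T v = (0, incl v.1) := rfl

theorem norm_T (v : X) : ‖T v‖ = ‖incl v.1‖ := by
  rw [T_apply, Prod.norm_def]
  simp

theorem dom_T (c : ℂ) : Dom (c • T) := by
  refine ⟨ContinuousLinearMap.fst ℂ l1 li, ‖c‖, ?_, ?_⟩
  · intro v
    exact norm_fst_le v
  · intro v
    rw [smul_apply, norm_smul, norm_T]
    rfl

/-- precomposition with the second inclusion -/
noncomputable def S : (X →L[ℂ] ℂ) →L[ℂ] l1 :=
  cs.comp (adj (ContinuousLinearMap.inr ℂ l1 li))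

theorem dom_adj (c : ℂ) : Dom (adj (c • T)) := by
  refine ⟨S, ‖c‖, ?_, ?_⟩
  · intro f
    have h1 : ‖S f‖ ≤ ‖adj (ContinuousLinearMap.inr ℂ l1 li) f‖ := norm_cs_le _
    have h2 : ‖adj (ContinuousLinearMap.inr ℂ l1 li) f‖ ≤ ‖f‖ := by
      refine ContinuousLinearMap.opNorm_le_bound _ (norm_nonneg _) ?_
      intro z
      rw [adj_apply]
      have h3 := f.le_opNorm (ContinuousLinearMap.inr ℂ l1 li z)
      have h4 : ‖ContinuousLinearMap.inr ℂ l1 li z‖ = ‖z‖ := by
        rw [ContinuousLinearMap.inr_apply, Prod.norm_def]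
        simp
      rwa [h4] at h3
    exact h1.trans h2
  · intro f
    refine ContinuousLinearMap.opNorm_le_bound _ (by positivity) ?_
    intro v
    have h1 : adj (c • T) f v = c * (adj (ContinuousLinearMap.inr ℂ l1 li) f) (incl v.1) := by
      rw [adj_apply, adj_apply, smul_apply, map_smul, smul_eq_mul]
      rfl
    rw [h1, norm_mul]
    have h2 := cs_bound (adj (ContinuousLinearMap.inr ℂ l1 li) f) v.1
    have h3 : ‖v.1‖ ≤ ‖v‖ := norm_fst_le v
    have h4 : cs (adj (ContinuousLinearMap.inr ℂ l1 li) f) = S f := rfl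
    rw [h4] at h2
    calc ‖c‖ * ‖(adj (ContinuousLinearMap.inr ℂ l1 li) f) (incl v.1)‖
        ≤ ‖c‖ * (‖incl (S f)‖ * ‖v.1‖) := by gcongr
      _ ≤ ‖c‖ * (‖incl (S f)‖ * ‖v‖) := by gcongr
      _ = ‖c‖ * ‖incl (S f)‖ * ‖v‖ := by ring

/-! ### upper and lower semi-Fredholm operators -/

/-- closed range and finite-dimensional kernel -/
def Up (A : X →L[ℂ] X) : Prop :=
  IsClosed (LinearMap.range (A : X →ₗ[ℂ] X) : Set X) ∧
    FiniteDimensional ℂ (LinearMap.ker (A : X →ₗ[ℂ] X))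

/-- closed range of finite codimension -/
def Lo (A : X →L[ℂ] X) : Prop :=
  IsClosed (LinearMap.range (A : X →ₗ[ℂ] X) : Set X) ∧ (LinearMap.range (A : X →ₗ[ℂ] X)).CoFG

theorem up_iff (A : X →L[ℂ] X) : Up A ↔ BB A :=
  ⟨fun h => BB_of_upper h.1 h.2, fun h => upper_of_BB h⟩

theorem lo_iff (A : X →L[ℂ] X) : Lo A ↔ BB (adj A) :=
  ⟨fun h => BB_adj_of_lower h.1 h.2, fun h => lower_of_BB_adj h⟩

theorem up_add {A : X →L[ℂ] X} (h : Up A) (c : ℂ) : Up (A + c • T) := by
  rw [up_iff] at h ⊢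
  exact BB_add h (dom_T c)

theorem lo_add {A : X →L[ℂ] X} (h : Lo A) (c : ℂ) : Lo (A + c • T) := by
  rw [lo_iff] at h ⊢
  rw [adj_add]
  exact BB_add h (dom_adj c)

theorem add_cancel_T (A : X →L[ℂ] X) (c : ℂ) : A + c • T + (-c) • T = A := by
  refine ContinuousLinearMap.ext ?_
  intro v
  show A v + c • T v + (-c) • T v = A v
  rw [neg_smul, add_neg_cancel_right]

theorem up_add_iff (A : X →L[ℂ] X) (c : ℂ) : Up (A + c • T) ↔ Up A := by
  constructor
  · intro h
    have := up_add h (-c)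
    have e : A + c • T + (-c) • T = A := add_cancel_T A c
    rwa [e] at this
  · intro h
    exact up_add h c

theorem lo_add_iff (A : X →L[ℂ] X) (c : ℂ) : Lo (A + c • T) ↔ Lo A := by
  constructor
  · intro h
    have := lo_add h (-c)
    have e : A + c • T + (-c) • T = A := add_cancel_T A c
    rwa [e] at this
  · intro h
    exact lo_add h c

/-! ### `T` is not compact -/

/-- the unit vectors of the first summand -/
noncomputable def dv (k : ℕ) : X := (lp.single 1 k (1 : ℂ), 0)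

theorem norm_dv (k : ℕ) : ‖dv k‖ = 1 := by
  have h : ‖(lp.single 1 k (1 : ℂ) : l1)‖ = 1 := by
    rw [lp.norm_single (by norm_num)]; simp
  rw [dv, Prod.norm_def]
  simp only [h, norm_zero]
  simp

theorem T_dv (k : ℕ) : T (dv k) = (0, ev k) := by
  rw [T_apply]
  show ((0 : l1), incl (lp.single 1 k (1 : ℂ))) = _
  rw [incl_single, one_smul]

theorem dist_ev {j k : ℕ} (h : j ≠ k) : 1 ≤ dist (T (dv j)) (T (dv k)) := by
  rw [T_dv, T_dv, dist_eq_norm]
  have h1 : ‖(ev j - ev k : li)‖ ≤ ‖((0 : l1), ev j) - ((0 : l1), ev k)‖ := by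
    exact norm_snd_le (((0 : l1), ev j) - ((0 : l1), ev k))
  have h2 := lp.norm_apply_le_norm ENNReal.top_ne_zero (ev j - ev k : li) j
  have h3 : (ev j - ev k : li) j = 1 := by
    rw [lp.coeFn_sub, Pi.sub_apply, ev, ev, lp.single_apply_self, lp.single_apply_ne _ _ _ h, sub_zero]
  rw [h3, norm_one] at h2
  exact h2.trans h1

theorem T_not_compact : ¬ IsCompactOperator T := by
  intro hT
  have h1 := hT.isCompact_closure_image_closedBall 1
  have h2 : ∀ n, T (dv n) ∈ closure (T '' Metric.closedBall 0 1) := by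
    intro n
    apply subset_closure
    exact ⟨dv n, by simp [norm_dv], rfl⟩
  obtain ⟨a, _, φ, hφ, hlim⟩ := h1.tendsto_subseq h2
  have hc := hlim.cauchySeq
  rw [Metric.cauchySeq_iff] at hc
  obtain ⟨N, hN⟩ := hc 1 one_pos
  have h3 := hN N le_rfl (N+1) (Nat.le_succ N)
  have h4 : φ N ≠ φ (N+1) := (hφ (Nat.lt_succ_self N)).ne
  have h5 := dist_ev h4
  simp only [Function.comp] at h3
  linarith

end R261.SF
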