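import Pool.Agent.R261.SF.Seq

/-! Perturbation of operators bounded below on a subspace of finite codimension. -/

open scoped ENNReal
open Set

namespace R261.SF

variable {V W : Type*} [NormedAddCommGroup V] [NormedSpace ℂ V] [NormedAddCommGroup W]
  [NormedSpace ℂ W]

/-- bounded below on a subspace of finite codimension -/
def BB (B : V →L[ℂ] W) : Prop :=
  ∃ M : Submodule ℂ V, M.CoFG ∧ ∃ c : ℝ, 0 < c ∧ ∀ v ∈ M, c * ‖v‖ ≤ ‖B v‖

/-- the operators dominated by the inclusion `ℓ¹ → ℓ^∞` -/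
def Dom (T : V →L[ℂ] W) : Prop :=
  ∃ (S : V →L[ℂ] l1) (C : ℝ), (∀ v, ‖S v‖ ≤ ‖v‖) ∧ ∀ v, ‖T v‖ ≤ C * ‖incl (S v)‖

theorem dimbound {T : V →L[ℂ] W} {S : V →L[ℂ] l1} {C : ℝ} (hS : ∀ v, ‖S v‖ ≤ ‖v‖)
    (hT : ∀ v, ‖T v‖ ≤ C * ‖incl (S v)‖) (hC : 0 ≤ C)
    (N : Submodule ℂ V) [FiniteDimensional ℂ N] {δ : ℝ} (hδ : 0 < δ)
    (hN : ∀ v ∈ N, δ * ‖v‖ ≤ ‖T v‖) : Module.finrank ℂ N * δ ≤ C := by
  rcases Nat.eq_zero_or_pos (Module.finrank ℂ N) with h0 | h0
  · rw [h0]; simpa using hC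
  set g : N →ₗ[ℂ] l1 := (S : V →ₗ[ℂ] l1) ∘ₗ N.subtype with hg
  have hgi : Function.Injective g := by
    rw [← LinearMap.ker_eq_bot, LinearMap.ker_eq_bot']
    intro v hv
    have h1 : S (v : V) = 0 := hv
    have h2 := hN v v.2
    have h3 := hT (v : V)
    rw [h1, map_zero, norm_zero, mul_zero] at h3
    have h4 : ‖(v : V)‖ ≤ 0 := by nlinarith [norm_nonneg (v : V)]
    exact Subtype.ext (norm_le_zero_iff.1 h4)
  set E : Submodule ℂ l1 := LinearMap.range g with hE
  have hfr : Module.finrank ℂ E = Module.finrank ℂ N := LinearMap.finrank_range_of_inj hgi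
  obtain ⟨y, hyE, hy0, hy1⟩ := maxcoord E (by rw [hfr]; exact h0)
  obtain ⟨v, rfl⟩ := hyE
  have h1 : g v = S (v : V) := rfl
  rw [h1] at hy0 hy1
  rw [hfr] at hy1
  have h2 := hN v v.2
  have h3 := hT (v : V)
  have h4 := hS (v : V)
  have h5 : (Module.finrank ℂ N) * δ * ‖incl (S (v : V))‖ ≤ C * ‖incl (S (v : V))‖ := by
    calc (Module.finrank ℂ N) * δ * ‖incl (S (v : V))‖
        = δ * ((Module.finrank ℂ N) * ‖incl (S (v : V))‖) := by ring
      _ ≤ δ * ‖(v : V)‖ := by gcongr; linarith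
      _ ≤ C * ‖incl (S (v : V))‖ := by linarith
  exact le_of_mul_le_mul_right h5 hy0

/-- finitely many functionals almost norm a finite dimensional subspace -/
theorem norming (N : Submodule ℂ V) [FiniteDimensional ℂ N] :
    ∃ M : Submodule ℂ V, M.CoFG ∧ ∀ x ∈ N, ∀ y ∈ M, ‖x‖ ≤ 2 * ‖x + y‖ := by
  have : ProperSpace N := FiniteDimensional.proper ℂ N
  have hsph : IsCompact (Metric.sphere (0 : N) 1) := isCompact_sphere _ _
  obtain ⟨t, ht, htfin, hcov⟩ := hsph.finite_cover_balls (e := 1/2) (by norm_num)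
  choose! f hf1 hf2 using fun (p : N) (hp : (p : V) ≠ 0) => exists_dual_vector ℂ (p : V) (norm_ne_zero_iff.2 hp)
  set F : V →ₗ[ℂ] (htfin.toFinset → ℂ) :=
    { toFun := fun y p => f p y
      map_add' := fun a b => by ext p; simp
      map_smul' := fun a b => by ext p; simp } with hF
  refine ⟨LinearMap.ker F, Submodule.CoFG.ker F, ?_⟩
  intro x hx y hy
  rcases eq_or_ne x 0 with rfl | hx0
  · simp
  have hxn : 0 < ‖x‖ := norm_pos_iff.2 hx0
  -- the normalised vector
  set x1 : N := ⟨((‖x‖ : ℂ)⁻¹) • x, N.smul_mem _ hx⟩ with hx1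
  have hx1n : ‖x1‖ = 1 := by
    have : ‖x1‖ = ‖((‖x‖ : ℂ)⁻¹) • x‖ := rfl
    rw [this, norm_smul, norm_inv, Complex.norm_real, norm_norm, inv_mul_cancel₀ hxn.ne']
  have hmem : x1 ∈ Metric.sphere (0 : N) 1 := by simp [hx1n]
  obtain ⟨p, hp, hpx⟩ := mem_iUnion₂.1 (hcov hmem)
  have hpn : ‖(p : V)‖ = 1 := by
    have := ht hp
    rw [mem_sphere_zero_iff_norm] at this
    exact this
  have hp0 : (p : V) ≠ 0 := by
    intro h; rw [h, norm_zero] at hpn; exact zero_ne_one hpn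
  have hfp := hf1 p hp0
  have hfpp := hf2 p hp0
  have hyp : f p y = 0 := congrFun (LinearMap.mem_ker.1 hy) ⟨p, htfin.mem_toFinset.2 hp⟩
  have hdist : ‖(x1 : V) - (p : V)‖ < 1/2 := by
    rw [Metric.mem_ball, dist_eq_norm] at hpx
    exact hpx
  have h1 : 1/2 ≤ ‖f p (x1 : V)‖ := by
    have e : (f p) (p : V) = f p (x1 : V) - f p ((x1 : V) - (p : V)) := by rw [map_sub]; ring
    have h2 : ‖f p (p : V)‖ = 1 := by rw [hfpp]; simp [hpn]
    have h3 : ‖f p ((x1 : V) - (p : V))‖ ≤ 1/2 := by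
      calc ‖f p ((x1 : V) - (p : V))‖ ≤ ‖f p‖ * ‖(x1 : V) - (p : V)‖ := (f p).le_opNorm _
        _ ≤ 1 * (1/2) := by rw [hfp]; gcongr
        _ = 1/2 := by ring
    have h4 : ‖f p (p : V)‖ ≤ ‖f p (x1 : V)‖ + ‖f p ((x1 : V) - (p : V))‖ := by
      rw [e]; exact norm_sub_le _ _
    linarith
  have h5 : f p x = (‖x‖ : ℂ) * f p (x1 : V) := by
    have : x = (‖x‖ : ℂ) • (x1 : V) := by
      rw [hx1]
      simp only
      rw [smul_smul, mul_inv_cancel₀ (by exact_mod_cast hxn.ne'), one_smul]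
    conv_lhs => rw [this]
    rw [map_smul, smul_eq_mul]
  have h6 : ‖f p (x + y)‖ = ‖x‖ * ‖f p (x1 : V)‖ := by
    rw [map_add, hyp, add_zero, h5, norm_mul, Complex.norm_real, norm_norm]
  have h7 : ‖f p (x + y)‖ ≤ ‖x + y‖ := by
    have := (f p).le_opNorm (x + y)
    rwa [hfp, one_mul] at this
  have h8 : ‖x‖ * (1/2) ≤ ‖x‖ * ‖f p (x1 : V)‖ := by gcongr
  linarith

/-- almost null subspaces -/
theorem almostNull {B : V →L[ℂ] W} (hB : ¬ BB B) (M : Submodule ℂ V) (hM : M.CoFG) (n : ℕ) :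
    ∀ η : ℝ, 0 < η → ∃ N : Submodule ℂ V, N ≤ M ∧ FiniteDimensional ℂ N ∧
      Module.finrank ℂ N = n ∧ ∀ v ∈ N, ‖B v‖ ≤ η * ‖v‖ := by
  induction n with
  | zero =>
    intro η hη
    refine ⟨⊥, bot_le, inferInstance, by simp, ?_⟩
    intro v hv
    rw [Submodule.mem_bot] at hv
    rw [hv]; simp
  | succ n ih =>
    intro η hη
    obtain ⟨N, hNM, hNf, hNn, hN⟩ := ih (η/4) (by linarith)
    obtain ⟨M', hM', hMM'⟩ := norming N
    have hB' : ∃ y ∈ M ⊓ M', ‖B y‖ < η/6 * ‖y‖ := by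
      by_contra hc
      push Not at hc
      exact hB ⟨M ⊓ M', hM.inf hM', η/6, by linarith, hc⟩
    obtain ⟨y, hy, hBy⟩ := hB'
    have hy0 : y ≠ 0 := by
      rintro rfl
      simp at hBy
    have hyN : y ∉ N := by
      intro hyN
      have h1 := hMM' y hyN (-y) (M'.neg_mem hy.2)
      rw [add_neg_cancel, norm_zero, mul_zero] at h1
      exact hy0 (norm_le_zero_iff.1 h1)
    refine ⟨N ⊔ Submodule.span ℂ {y}, ?_, ?_, ?_, ?_⟩
    · apply sup_le hNM
      rw [Submodule.span_singleton_le_iff_mem]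
      exact hy.1
    · infer_instance
    · have hdisj : N ⊓ Submodule.span ℂ {y} = ⊥ := by
        rw [eq_bot_iff]
        intro z hz
        obtain ⟨hz1, hz2⟩ := Submodule.mem_inf.1 hz
        obtain ⟨c, rfl⟩ := Submodule.mem_span_singleton.1 hz2
        rcases eq_or_ne c 0 with rfl | hc
        · simp
        · exfalso
          apply hyN
          have := N.smul_mem c⁻¹ hz1
          rwa [smul_smul, inv_mul_cancel₀ hc, one_smul] at this
      have h1 := Submodule.finrank_sup_add_finrank_inf_eq N (Submodule.span ℂ {y})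
      rw [hdisj, finrank_bot, add_zero, hNn, finrank_span_singleton hy0] at h1
      exact h1
    · intro v hv
      obtain ⟨x, hx, w, hw, rfl⟩ := Submodule.mem_sup.1 hv
      obtain ⟨c, rfl⟩ := Submodule.mem_span_singleton.1 hw
      have h1 := hMM' x hx (c • y) (M'.smul_mem c hy.2)
      have h2 : ‖c • y‖ ≤ 3 * ‖x + c • y‖ := by
        have : ‖c • y‖ ≤ ‖x + c • y‖ + ‖x‖ := by
          have e : c • y = (x + c • y) - x := by abel
          calc ‖c • y‖ = ‖(x + c • y) - x‖ := by rw [← e]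
            _ ≤ _ := norm_sub_le _ _
        linarith
      have h3 : ‖B (c • y)‖ ≤ η/6 * ‖c • y‖ := by
        rw [map_smul, norm_smul, norm_smul]
        calc ‖c‖ * ‖B y‖ ≤ ‖c‖ * (η/6 * ‖y‖) := by gcongr
          _ = _ := by ring
      calc ‖B (x + c • y)‖ ≤ ‖B x‖ + ‖B (c • y)‖ := by rw [map_add]; exact norm_add_le _ _
        _ ≤ η/4 * ‖x‖ + η/6 * ‖c • y‖ := add_le_add (hN x hx) h3
        _ ≤ η/4 * (2 * ‖x + c • y‖) + η/6 * (3 * ‖x + c • y‖) := by gcongr
        _ = η * ‖x + c • y‖ := by ring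

/-- perturbation theorem -/
theorem BB_add {A T : V →L[ℂ] W} (hA : BB A) (hT : Dom T) : BB (A + T) := by
  obtain ⟨S, C0, hS, hC0⟩ := hT
  set C := max C0 0 with hC
  have hCT : ∀ v, ‖T v‖ ≤ C * ‖incl (S v)‖ := by
    intro v
    refine (hC0 v).trans ?_
    gcongr
    exact le_max_left _ _
  obtain ⟨M, hM, c, hc, hMc⟩ := hA
  by_contra hB
  obtain ⟨n, hn⟩ := exists_nat_gt (C / (c/2))
  obtain ⟨N, hNM, hNf, hNn, hN⟩ := almostNull hB M hM n (c/2) (by linarith)
  have h1 := dimbound hS hCT (le_max_right _ _) N (δ := c/2) (by linarith) (by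
    intro v hv
    have h2 := hMc v (hNM hv)
    have h3 := hN v hv
    have h4 : ‖A v‖ ≤ ‖(A + T) v‖ + ‖T v‖ := by
      have e : A v = (A + T) v - T v := by simp
      rw [e]; exact norm_sub_le _ _
    linarith)
  rw [hNn] at h1
  rw [div_lt_iff₀ (by linarith)] at hn
  linarith

variable [CompleteSpace V]

/-- `BB` implies closed range and finite dimensional kernel -/
theorem upper_of_BB {B : V →L[ℂ] W} (hB : BB B) :
    IsClosed (LinearMap.range (B : V →ₗ[ℂ] W) : Set W) ∧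
      FiniteDimensional ℂ (LinearMap.ker (B : V →ₗ[ℂ] W)) := by
  obtain ⟨M, hM, c, hc, hMc⟩ := hB
  -- pass to the closure
  have hMc' : ∀ v ∈ M.topologicalClosure, c * ‖v‖ ≤ ‖B v‖ := by
    intro v hv
    have hcl : IsClosed {v : V | c * ‖v‖ ≤ ‖B v‖} :=
      isClosed_le (continuous_const.mul continuous_norm) B.continuous.norm
    exact (closure_minimal (fun v hv => hMc v hv) hcl) hv
  have hcof : (M.topologicalClosure).CoFG := Submodule.CoFG.of_le M.le_topologicalClosure hM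
  have hclosed := M.isClosed_topologicalClosure
  have : CompleteSpace M.topologicalClosure := hclosed.completeSpace_coe
  have hanti : AntilipschitzWith (Real.toNNReal c⁻¹) (B.domRestrict M.topologicalClosure) := by
    apply AddMonoidHomClass.antilipschitz_of_bound
    intro x
    rw [Real.coe_toNNReal _ (inv_nonneg.2 hc.le)]
    have h1 := hMc' x x.2
    have h2 : ‖x‖ = ‖(x : V)‖ := rfl
    have h3 : (B.domRestrict M.topologicalClosure) x = B (x : V) := rfl
    rw [h2, h3, ← div_eq_inv_mul, le_div_iff₀ hc]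
    linarith
  have hemb : Topology.IsClosedEmbedding (B.domRestrict M.topologicalClosure) :=
    hanti.isClosedEmbedding (B.domRestrict M.topologicalClosure).uniformContinuous
  constructor
  · refine ((B.isStrictMap_isClosed_range_iff_restrict M.topologicalClosure hclosed).2 ⟨?_, ?_⟩).2
    · exact hemb.isEmbedding.isStrictMap
    · exact hemb.isClosed_range
  · have hdisj : Disjoint (LinearMap.ker (B : V →ₗ[ℂ] W)) M.topologicalClosure := by
      rw [Submodule.disjoint_def]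
      intro x hx hxM
      have h1 := hMc' x hxM
      have h2 : B x = 0 := hx
      rw [h2, norm_zero] at h1
      have : ‖x‖ ≤ 0 := by nlinarith [norm_nonneg x]
      exact norm_le_zero_iff.1 this
    exact Module.Finite.iff_fg.2 (Submodule.CoFG.fg_of_disjoint hdisj hcof)

variable [CompleteSpace W]

/-- preimages of controlled norm -/
theorem lift_const {B : V →L[ℂ] W} (h1 : IsClosed (LinearMap.range (B : V →ₗ[ℂ] W) : Set W)) :
    ∃ C : ℝ, 0 < C ∧ ∀ v, ∃ v', B v' = B v ∧ ‖v'‖ ≤ C * ‖B v‖ := by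
  set R := LinearMap.range (B : V →ₗ[ℂ] W) with hR
  have : CompleteSpace R := h1.completeSpace_coe
  set AR : V →L[ℂ] R := B.codRestrict R (fun v => ⟨v, rfl⟩) with hAR
  have hsurj : Function.Surjective AR := by
    rintro ⟨w, v, rfl⟩
    exact ⟨v, rfl⟩
  obtain ⟨C, hC0, hC⟩ := AR.exists_preimage_norm_le hsurj
  refine ⟨C, hC0, ?_⟩
  intro v
  obtain ⟨v', h2, h3⟩ := hC (AR v)
  exact ⟨v', congrArg Subtype.val h2, h3⟩

/-- closed range and finite dimensional kernel imply `BB` -/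
theorem BB_of_upper {B : V →L[ℂ] W} (h1 : IsClosed (LinearMap.range (B : V →ₗ[ℂ] W) : Set W))
    (h2 : FiniteDimensional ℂ (LinearMap.ker (B : V →ₗ[ℂ] W))) : BB B := by
  obtain ⟨M, hMcl, hMc⟩ := (Submodule.ClosedComplemented.of_finiteDimensional
    (LinearMap.ker (B : V →ₗ[ℂ] W))).exists_isClosed_isCompl
  have : CompleteSpace M := hMcl.completeSpace_coe
  have hcof : M.CoFG := Submodule.FG.cofg_of_isCompl hMc (Module.Finite.iff_fg.1 h2)
  have hinj : Function.Injective (B.domRestrict M) := by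
    rw [injective_iff_map_eq_zero]
    intro x hx
    have h3 : (x : V) ∈ LinearMap.ker (B : V →ₗ[ℂ] W) := hx
    have := Submodule.disjoint_def.1 hMc.disjoint x h3 x.2
    exact Subtype.ext this
  have hrange : Set.range (B.domRestrict M) = (LinearMap.range (B : V →ₗ[ℂ] W) : Set W) := by
    ext w
    constructor
    · rintro ⟨x, rfl⟩
      exact ⟨x, rfl⟩
    · rintro ⟨x, rfl⟩
      obtain ⟨a, ha, b, hb, rfl⟩ := Submodule.mem_sup.1 (hMc.sup_eq_top ▸ Submodule.mem_top : x ∈ _ ⊔ M)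
      refine ⟨⟨b, hb⟩, ?_⟩
      have h3 : B a = 0 := ha
      show B b = B (a + b)
      rw [map_add, h3, zero_add]
  obtain ⟨K, hK⟩ := (B.domRestrict M).antilipschitz_of_injective_of_isClosed_range hinj
    (by rw [hrange]; exact h1)
  refine ⟨M, hcof, (K + 1 : ℝ)⁻¹, by positivity, ?_⟩
  intro v hv
  have h3 := hK.le_mul_dist (⟨v, hv⟩ : M) 0
  rw [dist_zero_right, map_zero, dist_zero_right] at h3
  have h4 : ‖v‖ ≤ K * ‖B v‖ := h3
  rw [inv_mul_le_iff₀ (by positivity)]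
  nlinarith [norm_nonneg (B v)]

end R261.SF
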