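import Pool.Agent.R261.SF.Op

/-! The two functionals and the maps `A ↦ A + f(A) T`. -/

open scoped ENNReal
open Set

namespace R261.SF

/-- the bounded operators on `X` -/
abbrev BX : Type := X →L[ℂ] X

/-- `A ↦ A + f(A) T` -/
noncomputable def fwd (f : BX →L[ℂ] ℂ) : BX →L[ℂ] BX := ContinuousLinearMap.id ℂ BX + f.smulRight T

theorem fwd_apply (f : BX →L[ℂ] ℂ) (A : BX) : fwd f A = A + f A • T := rfl

theorem fwd_neg_fwd (f : BX →L[ℂ] ℂ) (hf : f T = 0) (A : BX) : fwd (-f) (fwd f A) = A := by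
  rw [fwd_apply, fwd_apply]
  have h1 : (-f) (A + f A • T) = -(f A) := by
    rw [neg_apply, map_add, map_smul, hf, smul_zero, add_zero]
  rw [h1]
  exact add_cancel_T A (f A)

/-- the continuous linear bijection `A ↦ A + f(A) T` -/
noncomputable def phi (f : BX →L[ℂ] ℂ) (hf : f T = 0) : BX ≃L[ℂ] BX :=
  ContinuousLinearEquiv.equivOfInverse (fwd f) (fwd (-f)) (fwd_neg_fwd f hf) (by
    intro A
    have h := fwd_neg_fwd (-f) (by rw [neg_apply, hf, neg_zero]) A
    have e : -(-f) = f := ContinuousLinearMap.ext fun _ => neg_neg _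
    rwa [e] at h)

theorem phi_apply (f : BX →L[ℂ] ℂ) (hf : f T = 0) (A : BX) : phi f hf A = A + f A • T := rfl

/-- the functional `A ↦ (A(0,δ₀)).1 0` -/
noncomputable def f1 : BX →L[ℂ] ℂ :=
  LinearMap.mkContinuous
    { toFun := fun A => (A ((0 : l1), ev 0)).1 0
      map_add' := fun _ _ => rfl
      map_smul' := fun _ _ => rfl } 1 (by
    intro A
    rw [one_mul]
    have h1 : ‖((0 : l1), ev 0)‖ = 1 := by
      have h : ‖(ev 0 : li)‖ = 1 := by
        rw [ev, lp.norm_single (by norm_num)]; simp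
      rw [Prod.norm_def]
      simp only [h, norm_zero]
      simp
    calc ‖(A ((0 : l1), ev 0)).1 0‖ ≤ ‖(A ((0 : l1), ev 0)).1‖ :=
          lp.norm_apply_le_norm one_ne_zero _ 0
      _ ≤ ‖A ((0 : l1), ev 0)‖ := norm_fst_le _
      _ ≤ ‖A‖ * ‖((0 : l1), ev 0)‖ := A.le_opNorm _
      _ = ‖A‖ := by rw [h1, mul_one])

theorem f1_apply (A : BX) : f1 A = (A ((0 : l1), ev 0)).1 0 := rfl

theorem f1_T : f1 T = 0 := by
  rw [f1_apply, T_apply]; rfl

theorem f1_one : f1 1 = 0 := by
  rw [f1_apply]; rfl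

/-- the rank-one operator `(y,z) ↦ (z₀ δ₀, 0)` -/
noncomputable def K0 : BX :=
  (LinearMap.mkContinuous
    { toFun := fun v : X => v.2 0
      map_add' := fun _ _ => rfl
      map_smul' := fun _ _ => rfl } 1 (by
    intro v
    rw [one_mul]
    exact (lp.norm_apply_le_norm ENNReal.top_ne_zero v.2 0).trans (norm_snd_le v))).smulRight (dv 0)

theorem K0_apply (v : X) : K0 v = v.2 0 • dv 0 := rfl

theorem f1_K0 : f1 K0 = 1 := by
  rw [f1_apply, K0_apply]
  show (ev 0 0 • dv 0).1 0 = 1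
  have h1 : ev 0 0 = 1 := lp.single_apply_self _ _ _
  rw [h1, one_smul]
  show (lp.single 1 0 (1 : ℂ) : l1) 0 = 1
  exact lp.single_apply_self _ _ _

theorem K0_range : LinearMap.range (K0 : X →ₗ[ℂ] X) = Submodule.span ℂ {dv 0} := by
  apply le_antisymm
  · rintro _ ⟨v, rfl⟩
    rw [Submodule.mem_span_singleton]
    exact ⟨v.2 0, rfl⟩
  · rw [Submodule.span_singleton_le_iff_mem]
    refine ⟨((0 : l1), ev 0), ?_⟩
    show (ev 0 0) • dv 0 = dv 0
    have h1 : ev 0 0 = 1 := lp.single_apply_self _ _ _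
    rw [h1, one_smul]

theorem K0_compact : IsCompactOperator K0 := by
  have h : IsCompactOperator (fun c : ℂ => c • dv 0) :=
    isCompactOperator_of_locallyCompactSpace_rng ((ContinuousLinearMap.id ℂ ℂ).smulRight (dv 0))
  exact h.comp_clm ((LinearMap.mkContinuous
    { toFun := fun v : X => v.2 0
      map_add' := fun _ _ => rfl
      map_smul' := fun _ _ => rfl } 1 (by
    intro v
    rw [one_mul]
    exact (lp.norm_apply_le_norm ENNReal.top_ne_zero v.2 0).trans (norm_snd_le v))))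

theorem phi_K0_not_compact : ¬ IsCompactOperator (phi f1 f1_T K0) := by
  intro h
  rw [phi_apply, f1_K0] at h
  have h2 := h.sub K0_compact
  apply T_not_compact
  have e : (⇑(K0 + (1 : ℂ) • T) - ⇑K0) = ⇑T := by
    funext v
    show K0 v + (1 : ℂ) • T v - K0 v = T v
    rw [one_smul, add_sub_cancel_left]
  rwa [e] at h2

end R261.SF
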