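import Pool.Agent.R261.SF.Phi

/-! A second functional, vanishing on the compact operators. -/

open scoped ENNReal
open Set

namespace R261.SF

/-- the projection onto the first summand -/
noncomputable def P : BX :=
  (ContinuousLinearMap.inl ℂ l1 li).comp (ContinuousLinearMap.fst ℂ l1 li)

theorem P_apply (v : X) : P v = (v.1, 0) := rfl

/-- the projection of `ℓ^∞` onto the even coordinates -/
noncomputable def evenPart : li →L[ℂ] li :=
  LinearMap.mkContinuous
    { toFun := fun z => (⟨fun k => if Even k then z k else 0, by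
        apply memℓp_infty
        refine ⟨‖z‖, ?_⟩
        rintro _ ⟨k, rfl⟩
        simp only
        split_ifs
        · exact lp.norm_apply_le_norm ENNReal.top_ne_zero z k
        · rw [norm_zero]; exact norm_nonneg _⟩ : li)
      map_add' := fun a b => by
        ext k
        show (if Even k then (a + b) k else 0) = (if Even k then a k else 0) + (if Even k then b k else 0)
        split_ifs
        · rfl
        · simp
      map_smul' := fun c a => by
        ext k
        show (if Even k then (c • a) k else 0) = c • (if Even k then a k else 0)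
        split_ifs
        · rfl
        · simp } 1 (by
    intro z
    rw [one_mul]
    refine lp.norm_le_of_forall_le (norm_nonneg _) ?_
    intro k
    show ‖(if Even k then z k else 0 : ℂ)‖ ≤ ‖z‖
    split_ifs
    · exact lp.norm_apply_le_norm ENNReal.top_ne_zero z k
    · rw [norm_zero]; exact norm_nonneg _)

theorem evenPart_apply (z : li) (k : ℕ) : evenPart z k = if Even k then z k else 0 := rfl

theorem evenPart_ev (k : ℕ) : evenPart (ev k) = (if Even k then 1 else 0 : ℂ) • ev k := by
  ext j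
  rw [evenPart_apply]
  show (if Even j then ev k j else 0) = (if Even k then 1 else 0 : ℂ) * ev k j
  rcases eq_or_ne j k with rfl | h
  · split_ifs <;> simp
  · have : ev k j = 0 := lp.single_apply_ne _ _ _ h
    rw [this]; simp

/-- `(y,z) ↦ (0, 1_{even} z)` -/
noncomputable def A0 : BX :=
  (ContinuousLinearMap.inr ℂ l1 li).comp (evenPart.comp (ContinuousLinearMap.snd ℂ l1 li))

theorem A0_apply (v : X) : A0 v = (0, evenPart v.2) := rfl

theorem norm_ev (k : ℕ) : ‖(ev k : li)‖ = 1 := by
  rw [ev, lp.norm_single (by norm_num)]; simp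

/-- no separated images of bounded sequences -/
theorem sep {K : BX} (hK : IsCompactOperator K) (u : ℕ → X) (hu : ∀ n, ‖u n‖ ≤ 1) (δ : ℝ)
    (hδ : 0 < δ) (h : ∀ m n, m ≠ n → δ ≤ dist (K (u m)) (K (u n))) : False := by
  have h1 := hK.isCompact_closure_image_closedBall 1
  have h2 : ∀ n, K (u n) ∈ closure (K '' Metric.closedBall 0 1) := by
    intro n
    apply subset_closure
    exact ⟨u n, by simpa using hu n, rfl⟩
  obtain ⟨a, _, φ, hφ, hlim⟩ := h1.tendsto_subseq h2
  have hc := hlim.cauchySeq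
  rw [Metric.cauchySeq_iff] at hc
  obtain ⟨N, hN⟩ := hc δ hδ
  have h3 := hN N le_rfl (N+1) (Nat.le_succ N)
  have h4 : φ N ≠ φ (N+1) := (hφ (Nat.lt_succ_self N)).ne
  have h5 := h _ _ h4
  simp only [Function.comp] at h3
  linarith

theorem coef2 {K : BX} (hK : IsCompactOperator K) (u : ℕ → X) (hu : ∀ n, ‖u n‖ ≤ 1)
    (ν : ℕ → ℕ) (hν : Function.Injective ν) (a : ℂ) (h : ∀ n, (K (u n)).2 = a • ev (ν n)) :
    a = 0 := by
  by_contra ha
  refine sep hK u hu ‖a‖ (norm_pos_iff.2 ha) ?_
  intro m n hmn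
  rw [dist_eq_norm]
  have h1 : ‖(K (u m) - K (u n)).2‖ ≤ ‖K (u m) - K (u n)‖ := norm_snd_le _
  have h2 : (K (u m) - K (u n)).2 = a • ev (ν m) - a • ev (ν n) := by
    show (K (u m)).2 - (K (u n)).2 = _
    rw [h m, h n]
  have h3 := lp.norm_apply_le_norm ENNReal.top_ne_zero (a • ev (ν m) - a • ev (ν n) : li) (ν m)
  have h4 : (a • ev (ν m) - a • ev (ν n) : li) (ν m) = a := by
    show a * ev (ν m) (ν m) - a * ev (ν n) (ν m) = a
    have e1 : ev (ν m) (ν m) = 1 := lp.single_apply_self _ _ _
    have e2 : ev (ν n) (ν m) = 0 := lp.single_apply_ne _ _ _ (hν.ne hmn)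
    rw [e1, e2]; ring
  rw [h4] at h3
  rw [h2] at h1
  exact h3.trans h1

theorem coef1 {K : BX} (hK : IsCompactOperator K) (u : ℕ → X) (hu : ∀ n, ‖u n‖ ≤ 1)
    (h : ∀ n, (K (u n)).1 = lp.single 1 n (1 : ℂ)) : False := by
  refine sep hK u hu 1 one_pos ?_
  intro m n hmn
  rw [dist_eq_norm]
  have h1 : ‖(K (u m) - K (u n)).1‖ ≤ ‖K (u m) - K (u n)‖ := norm_fst_le _
  have h2 : (K (u m) - K (u n)).1 = lp.single 1 m (1 : ℂ) - lp.single 1 n (1 : ℂ) := by
    show (K (u m)).1 - (K (u n)).1 = _
    rw [h m, h n]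
  have h3 := lp.norm_apply_le_norm one_ne_zero (lp.single 1 m (1 : ℂ) - lp.single 1 n (1 : ℂ) : l1) m
  have h4 : (lp.single 1 m (1 : ℂ) - lp.single 1 n (1 : ℂ) : l1) m = 1 := by
    rw [lp.coeFn_sub, Pi.sub_apply, lp.single_apply_self, lp.single_apply_ne _ _ _ hmn, sub_zero]
  rw [h4, norm_one] at h3
  rw [h2] at h1
  exact h3.trans h1

theorem norm_ev' (k : ℕ) : ‖(((0 : l1), ev k) : X)‖ ≤ 1 := by
  rw [Prod.norm_def]
  simp [norm_ev]

/-- the compact operators -/
noncomputable def KX : Submodule ℂ BX := compactOperator (RingHom.id ℂ) X X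

theorem mem_KX (K : BX) : K ∈ KX ↔ IsCompactOperator K := Iff.rfl

theorem KX_closed : IsClosed (KX : Set BX) := by
  have h := isClosed_setOfPred_isCompactOperator (𝕜₁ := ℂ) (𝕜₂ := ℂ) (σ₁₂ := RingHom.id ℂ)
    (M₁ := X) (M₂ := X)
  exact h

theorem P_not_mem {K : BX} (hK : IsCompactOperator K) (a b : ℂ) : P ≠ K + (a • (1 : BX) + b • T) := by
  intro h
  have hK' : ∀ v, K v = P v - a • v - b • T v := by
    intro v
    rw [h]
    show K v = K v + (a • v + b • T v) - a • v - b • T v
    abel
  have ha : -a = 0 := by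
    refine coef2 hK (fun n => ((0 : l1), ev n)) norm_ev' id Function.injective_id (-a) ?_
    intro n
    rw [hK']
    show (0 : li) - a • ev n - b • incl 0 = -a • ev n
    rw [map_zero, smul_zero, sub_zero, zero_sub, neg_smul]
  have ha0 : a = 0 := neg_eq_zero.1 ha
  refine coef1 hK dv (fun n => (norm_dv n).le) ?_
  intro n
  rw [hK']
  show (lp.single 1 n (1 : ℂ) : l1) - a • lp.single 1 n (1 : ℂ) - b • (0 : l1) = lp.single 1 n (1 : ℂ)
  rw [ha0, zero_smul, smul_zero, sub_zero, sub_zero]

theorem A0T_not {K : BX} (hK : IsCompactOperator K) (c : ℂ) : K ≠ A0 * T - c • T := by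
  intro h
  have hK' : ∀ n, (K (dv n)).2 = ((if Even n then 1 else 0 : ℂ) - c) • ev n := by
    intro n
    rw [h]
    show evenPart (T (dv n)).2 - c • (T (dv n)).2 = _
    rw [T_dv, evenPart_ev, sub_smul]
  have h1 : (1 : ℂ) - c = 0 := by
    refine coef2 hK (fun n => dv (2*n)) (fun n => (norm_dv _).le) (fun n => 2*n)
      (fun m n hmn => by simpa using hmn) _ ?_
    intro n
    rw [hK', if_pos (even_two_mul n)]
  have h2 : (0 : ℂ) - c = 0 := by
    refine coef2 hK (fun n => dv (2*n+1)) (fun n => (norm_dv _).le) (fun n => 2*n+1)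
      (fun m n hmn => by simpa using hmn) _ ?_
    intro n
    rw [hK', if_neg (by simp)]
  have h3 : (1 : ℂ) = 0 := by linear_combination h1 - h2
  exact one_ne_zero h3

theorem closed_sep {E : Type*} [NormedAddCommGroup E] [NormedSpace ℂ E] (N : Submodule ℂ E)
    (hN : IsClosed (N : Set E)) (x : E) (hx : x ∉ N) :
    ∃ f : E →L[ℂ] ℂ, (∀ y ∈ N, f y = 0) ∧ f x = 1 := by
  have : IsClosed (N : Set E) := hN
  have hPn : ‖(Submodule.Quotient.mk x : E ⧸ N)‖ ≠ 0 := by
    rw [norm_ne_zero_iff]
    intro h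
    exact hx ((Submodule.Quotient.mk_eq_zero N).1 h)
  obtain ⟨g, hg1, hg2⟩ := exists_dual_vector ℂ (Submodule.Quotient.mk x : E ⧸ N) hPn
  set c : ℝ := ‖(Submodule.Quotient.mk x : E ⧸ N)‖ with hc
  refine ⟨((c : ℂ)⁻¹) • (g.comp N.mkQL), ?_, ?_⟩
  · intro y hy
    show (c : ℂ)⁻¹ * g (Submodule.Quotient.mk y) = 0
    rw [(Submodule.Quotient.mk_eq_zero N).2 hy, map_zero, mul_zero]
  · show (c : ℂ)⁻¹ * g (Submodule.Quotient.mk x) = 1
    rw [hg2]
    exact inv_mul_cancel₀ (by exact_mod_cast hPn)

/-- the second functional -/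
theorem exists_f2 : ∃ f : BX →L[ℂ] ℂ, (∀ K : BX, IsCompactOperator K → f K = 0) ∧ f 1 = 0 ∧
    f T = 0 ∧ f P = 1 := by
  set F : Submodule ℂ BX := Submodule.span ℂ {(1 : BX), T} with hF
  have : FiniteDimensional ℂ F := FiniteDimensional.span_of_finite ℂ (by simp)
  have hcl : IsClosed ((KX ⊔ F : Submodule ℂ BX) : Set BX) :=
    Submodule.isClosed_sup_finiteDimensional _ _ KX_closed
  have hP : P ∉ KX ⊔ F := by
    intro hP
    obtain ⟨K, hK, y, hy, hKy⟩ := Submodule.mem_sup.1 hP
    obtain ⟨a, b, rfl⟩ := Submodule.mem_span_pair.1 hy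
    exact P_not_mem hK a b hKy.symm
  obtain ⟨f, hf, hfP⟩ := closed_sep (KX ⊔ F) hcl P hP
  refine ⟨f, ?_, ?_, ?_, hfP⟩
  · intro K hK
    exact hf K (Submodule.mem_sup_left hK)
  · exact hf 1 (Submodule.mem_sup_right (Submodule.subset_span (by simp)))
  · exact hf T (Submodule.mem_sup_right (Submodule.subset_span (by simp)))

/-- the failure of multiplicativity and antimultiplicativity modulo compact operators -/
theorem not_mult (f : BX →L[ℂ] ℂ) (hT : f T = 0) (hP : f P = 1) :
    ∃ A B : BX, ¬ IsCompactOperator (phi f hT A * phi f hT B - phi f hT (A * B)) ∧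
      ¬ IsCompactOperator (phi f hT A * phi f hT B - phi f hT (B * A)) := by
  set c : ℂ := -(f A0) with hc
  set A : BX := A0 + c • P with hA
  have hfA : f A = 0 := by
    rw [hA, map_add, map_smul, hP, hc, smul_eq_mul]; ring
  have hphiA : ∀ v, phi f hT A v = A v := by
    intro v
    rw [phi_apply, hfA]
    show A v + (0 : ℂ) • T v = A v
    rw [zero_smul, add_zero]
  have hphiP : ∀ v, phi f hT P v = P v + T v := by
    intro v
    rw [phi_apply, hP]
    show P v + (1 : ℂ) • T v = _
    rw [one_smul]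
  have hAv : ∀ v, A v = A0 v + c • P v := fun v => rfl
  have hAP : A * P = c • P := by
    refine ContinuousLinearMap.ext ?_
    intro v
    show A0 (P v) + c • P (P v) = c • P v
    rw [A0_apply, P_apply, P_apply]
    simp
  have hPA : P * A = c • P := by
    refine ContinuousLinearMap.ext ?_
    intro v
    show P (A0 v + c • P v) = c • P v
    rw [map_add, map_smul, A0_apply, P_apply, P_apply, P_apply]
    simp
  have hphic : ∀ v, phi f hT (c • P) v = c • P v + c • T v := by
    intro v
    rw [phi_apply, map_smul, hP, smul_eq_mul, mul_one]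
    rfl
  have key : phi f hT A * phi f hT P - phi f hT (c • P) = A0 * T - c • T := by
    refine ContinuousLinearMap.ext ?_
    intro v
    show phi f hT A (phi f hT P v) - phi f hT (c • P) v = A0 (T v) - c • T v
    rw [hphiA, hphiP, hphic, hAv, map_add, map_add]
    have e1 : A0 (P v) = 0 := by rw [P_apply, A0_apply]; simp
    have e2 : P (P v) = P v := rfl
    have e3 : P (T v) = 0 := rfl
    rw [e1, e2, e3, zero_add, add_zero]
    abel
  refine ⟨A, P, ?_, ?_⟩
  · intro h
    rw [hAP] at h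
    exact A0T_not h c key
  · intro h
    rw [hPA] at h
    exact A0T_not h c key

end R261.SF
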