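import Mathlib

/-! Sequence space part: the inclusion `ℓ¹ → ℓ^∞` is finitely strictly singular. -/

open scoped ENNReal
open Set

namespace R261.SF

abbrev l1 : Type := lp (fun _ : ℕ => ℂ) 1
abbrev li : Type := lp (fun _ : ℕ => ℂ) ∞

/-- the inclusion `ℓ¹ → ℓ^∞` -/
noncomputable def incl : l1 →L[ℂ] li :=
  LinearMap.mkContinuous
    { toFun := fun y => ⟨(y : ∀ _ : ℕ, ℂ), (lp.memℓp y).of_exponent_ge le_top⟩
      map_add' := fun _ _ => rfl
      map_smul' := fun _ _ => rfl } 1 (by
    intro y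
    rw [one_mul]
    refine lp.norm_le_of_forall_le (norm_nonneg _) ?_
    intro i
    exact lp.norm_apply_le_norm one_ne_zero y i)

theorem incl_apply (y : l1) (k : ℕ) : incl y k = y k := rfl

theorem norm_incl_le (y : l1) : ‖incl y‖ ≤ ‖y‖ := by
  refine lp.norm_le_of_forall_le (norm_nonneg _) ?_
  intro i
  exact lp.norm_apply_le_norm one_ne_zero y i

theorem incl_inj {y : l1} (h : incl y = 0) : y = 0 := by
  ext k
  have : incl y k = 0 := by rw [h]; rfl
  rw [incl_apply] at this
  rw [this]; rfl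

theorem sum_le (y : l1) (s : Finset ℕ) : ∑ i ∈ s, ‖y i‖ ≤ ‖y‖ := by
  have := lp.sum_rpow_le_norm_rpow (p := 1) (by norm_num) y s
  simpa using this

theorem summ (y : l1) : Summable (fun i => ‖y i‖) := by
  have := (lp.memℓp y).summable (by norm_num)
  simpa using this

/-- the maximal coordinate lemma -/
theorem maxcoord (E : Submodule ℂ l1) [FiniteDimensional ℂ E] (hn : 0 < Module.finrank ℂ E) :
    ∃ y ∈ E, 0 < ‖incl y‖ ∧ (Module.finrank ℂ E) * ‖incl y‖ ≤ ‖y‖ := by
  set n := Module.finrank ℂ E with hndef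
  haveI : ProperSpace E := FiniteDimensional.proper ℂ E
  set f : E →ₗ[ℂ] li := (incl : l1 →ₗ[ℂ] li) ∘ₗ E.subtype with hf
  have hfc : ∀ y : E, f y = incl (y : l1) := fun y => rfl
  have hker : LinearMap.ker f = ⊥ := by
    rw [LinearMap.ker_eq_bot']
    intro y hy
    rw [hfc] at hy
    exact Subtype.ext (incl_inj hy)
  obtain ⟨K, hK0, hK⟩ := LinearMap.exists_antilipschitzWith f hker
  set B : Set E := {y | ‖incl (y : l1)‖ ≤ 1} with hB
  have hBclosed : IsClosed B := by
    apply isClosed_le _ continuous_const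
    exact (incl.continuous.comp continuous_subtype_val).norm
  have hBbdd : Bornology.IsBounded B := by
    rw [isBounded_iff_forall_norm_le]
    refine ⟨K, ?_⟩
    intro y hy
    have h1 := hK.le_mul_dist y 0
    rw [dist_zero_right, map_zero, dist_zero_right, hfc] at h1
    have h2 : ‖incl (y : l1)‖ ≤ 1 := hy
    calc ‖y‖ ≤ K * ‖incl (y : l1)‖ := h1
      _ ≤ K * 1 := by gcongr
      _ = K := mul_one _
  have hBc : IsCompact B := Metric.isCompact_of_isClosed_isBounded hBclosed hBbdd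
  obtain ⟨y, hyB, hyext⟩ := hBc.extremePoints_nonempty ⟨0, by
    show ‖incl ((0 : E) : l1)‖ ≤ 1
    simp⟩
  have hy1 : ‖incl (y : l1)‖ ≤ 1 := hyB
  have hyk : ∀ k, ‖(y : l1) k‖ ≤ 1 := by
    intro k
    have := lp.norm_apply_le_norm ENNReal.top_ne_zero (incl (y : l1)) k
    rw [incl_apply] at this
    linarith
  -- coordinates of modulus > 1/2 are finitely many
  have hfin : ∀ δ : ℝ, 0 < δ → {k : ℕ | δ < ‖(y : l1) k‖}.Finite := by
    intro δ hδ
    have := (summ (y : l1)).tendsto_cofinite_zero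
    have h2 := this.eventually (gt_mem_nhds hδ)
    rw [Filter.eventually_cofinite] at h2
    refine h2.subset ?_
    intro k hk
    simp only [mem_setOf_eq, not_lt] at hk ⊢
    exact hk.le
  have hKfin : {k : ℕ | ‖(y : l1) k‖ = 1}.Finite := by
    refine (hfin (1/2) (by norm_num)).subset ?_
    intro k hk
    simp only [mem_setOf_eq] at hk ⊢
    rw [hk]; norm_num
  set J : Finset ℕ := hKfin.toFinset with hJ
  have hJmem : ∀ k, k ∈ J ↔ ‖(y : l1) k‖ = 1 := by
    intro k; rw [hJ, Set.Finite.mem_toFinset]; rfl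
  have hcard : n ≤ J.card := by
    by_contra hlt
    push Not at hlt
    set g : E →ₗ[ℂ] (J → ℂ) :=
      { toFun := fun z k => (z : l1) k
        map_add' := fun _ _ => rfl
        map_smul' := fun _ _ => rfl } with hg
    have hgk : LinearMap.ker g ≠ ⊥ := by
      apply LinearMap.ker_ne_bot_of_finrank_lt
      rw [Module.finrank_fintype_fun_eq_card, Fintype.card_coe]
      exact hlt
    obtain ⟨z, hz, hz0⟩ := Submodule.exists_mem_ne_zero_of_ne_bot hgk
    have hzJ : ∀ k ∈ J, (z : l1) k = 0 := by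
      intro k hk
      have := congrFun (LinearMap.mem_ker.1 hz) ⟨k, hk⟩
      exact this
    -- a uniform gap
    obtain ⟨δ, hδ0, hδ1, hδ⟩ : ∃ δ : ℝ, 0 < δ ∧ δ ≤ 1/2 ∧ ∀ k, k ∉ J → ‖(y : l1) k‖ ≤ 1 - δ := by
      set S : Finset ℕ := (hfin (1/2) (by norm_num)).toFinset \ J with hS
      by_cases hSe : S.Nonempty
      · obtain ⟨k0, hk0, hmax⟩ := S.exists_max_image (fun k => ‖(y : l1) k‖) hSe
        have hk0J : k0 ∉ J := (Finset.mem_sdiff.1 hk0).2
        have hlt1 : ‖(y : l1) k0‖ < 1 := lt_of_le_of_ne (hyk k0) (fun h => hk0J ((hJmem k0).2 h))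
        have hgt : 1/2 < ‖(y : l1) k0‖ := by
          have := (Finset.mem_sdiff.1 hk0).1
          rw [Set.Finite.mem_toFinset] at this
          exact this
        refine ⟨1 - ‖(y : l1) k0‖, by linarith, by linarith, ?_⟩
        intro k hk
        rw [sub_sub_cancel]
        by_cases hk2 : 1/2 < ‖(y : l1) k‖
        · apply hmax
          rw [hS, Finset.mem_sdiff, Set.Finite.mem_toFinset]
          exact ⟨hk2, hk⟩
        · linarith
      · refine ⟨1/2, by norm_num, le_rfl, ?_⟩
        intro k hk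
        by_contra hgt
        push Not at hgt
        apply hSe
        refine ⟨k, ?_⟩
        rw [hS, Finset.mem_sdiff, Set.Finite.mem_toFinset]
        refine ⟨?_, hk⟩
        simp only [mem_setOf_eq]
        linarith
    have hzn : 0 < ‖incl (z : l1)‖ := by
      rw [norm_pos_iff]
      intro h
      exact hz0 (Subtype.ext (incl_inj h))
    set t : ℝ := δ / ‖incl (z : l1)‖ with ht
    have ht0 : 0 < t := div_pos hδ0 hzn
    have hmem : ∀ s : ℝ, |s| = t → y + (s : ℂ) • z ∈ B := by
      intro s hs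
      show ‖incl ((y + (s : ℂ) • z : E) : l1)‖ ≤ 1
      refine lp.norm_le_of_forall_le zero_le_one ?_
      intro k
      rw [incl_apply]
      have e : ((y + (s : ℂ) • z : E) : l1) k = (y : l1) k + (s : ℂ) * (z : l1) k := rfl
      rw [e]
      by_cases hk : k ∈ J
      · rw [hzJ k hk, mul_zero, add_zero]; exact hyk k
      · have h1 := lp.norm_apply_le_norm ENNReal.top_ne_zero (incl (z : l1)) k
        rw [incl_apply] at h1
        calc ‖(y : l1) k + (s : ℂ) * (z : l1) k‖ ≤ ‖(y : l1) k‖ + ‖(s : ℂ) * (z : l1) k‖ := norm_add_le _ _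
          _ = ‖(y : l1) k‖ + t * ‖(z : l1) k‖ := by rw [norm_mul, Complex.norm_real, Real.norm_eq_abs, hs]
          _ ≤ (1 - δ) + t * ‖incl (z : l1)‖ := by
            have := hδ k hk
            gcongr
          _ = 1 := by rw [ht]; field_simp; ring
    have h1 := hmem t (abs_of_pos ht0)
    have h2 := hmem (-t) (by rw [abs_neg, abs_of_pos ht0])
    have hmid : y ∈ openSegment ℝ (y + ((t : ℝ) : ℂ) • z) (y + ((-t : ℝ) : ℂ) • z) := by
      refine ⟨1/2, 1/2, by norm_num, by norm_num, by norm_num, ?_⟩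
      have e1 : (1/2 : ℝ) • (y + ((t : ℝ) : ℂ) • z) + (1/2 : ℝ) • (y + ((-t : ℝ) : ℂ) • z) =
        ((1/2 : ℝ) + (1/2 : ℝ)) • y + (1/2 : ℝ) • ((((t : ℝ) : ℂ) + ((-t : ℝ) : ℂ)) • z) := by
        rw [add_smul, add_smul, smul_add, smul_add, smul_add]
        abel
      rw [e1]
      push_cast
      rw [add_neg_cancel, zero_smul, smul_zero, add_zero]
      norm_num
    have h3 := hyext h1 h2 hmid
    have h4 : ((t : ℝ) : ℂ) • z = 0 := by
      have : y + ((t : ℝ) : ℂ) • z = y := h3
      simpa using this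
    rcases smul_eq_zero.1 h4 with h5 | h5
    · have : t = 0 := by exact_mod_cast h5
      exact ht0.ne' this
    · exact hz0 h5
  have hJpos : 0 < J.card := lt_of_lt_of_le hn hcard
  obtain ⟨k, hk⟩ := Finset.card_pos.1 hJpos
  have hnorm1 : ‖incl (y : l1)‖ = 1 := by
    apply le_antisymm hy1
    have := lp.norm_apply_le_norm ENNReal.top_ne_zero (incl (y : l1)) k
    rw [incl_apply, (hJmem k).1 hk] at this
    exact this
  refine ⟨y, y.2, by rw [hnorm1]; norm_num, ?_⟩
  rw [hnorm1, mul_one]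
  calc (n : ℝ) ≤ J.card := by exact_mod_cast hcard
    _ = ∑ i ∈ J, ‖(y : l1) i‖ := by
      rw [Finset.sum_congr rfl (fun i hi => (hJmem i).1 hi)]
      simp
    _ ≤ ‖(y : l1)‖ := sum_le _ _

end R261.SF
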